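import Mathlib

/-!
Augmented graphs on the grid of cells with m rows and n columns, the generalized cycle-free
condition, and the numbers z, z3A, z3L, following the problem file of MP_10302a_co.
-/

set_option autoImplicit false

namespace Pool.Agent.Lib.MP_10302a_co

/-- An augmented graph: a set of cells, a set of 2-element sets of cells and a set of
3-element sets of cells. -/
structure AugGraph (m n : ℕ) where
  E1 : Finset (Fin m × Fin n)
  E2 : Finset (Finset (Fin m × Fin n))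
  E3 : Finset (Finset (Fin m × Fin n))
  card_E2 : ∀ e ∈ E2, e.card = 2
  card_E3 : ∀ e ∈ E3, e.card = 3

/-- Condition 1 occurs for the set of cells `E`. -/
def HasC4 {m n : ℕ} (E : Finset (Fin m × Fin n)) : Prop :=
  ∃ (i k : Fin m) (j l : Fin n), i ≠ k ∧ j ≠ l ∧
    (i, j) ∈ E ∧ (i, l) ∈ E ∧ (k, j) ∈ E ∧ (k, l) ∈ E

namespace AugGraph

variable {m n : ℕ}

/-- The cell lies in `E1` or in some 2-edge or in some 3-edge. -/
def Occupied (G : AugGraph m n) (c : Fin m × Fin n) : Prop :=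
  c ∈ G.E1 ∨ (∃ e ∈ G.E2, c ∈ e) ∨ (∃ e ∈ G.E3, c ∈ e)

/-- The cell lies in `E1` or in some 2-edge. -/
def Occupied12 (G : AugGraph m n) (c : Fin m × Fin n) : Prop :=
  c ∈ G.E1 ∨ ∃ e ∈ G.E2, c ∈ e

/-- No cell lies in more than one edge. -/
def Simple (G : AugGraph m n) : Prop :=
  (∀ c ∈ G.E1, ∀ e ∈ G.E2 ∪ G.E3, c ∉ e) ∧
    (∀ e ∈ G.E2 ∪ G.E3, ∀ f ∈ G.E2 ∪ G.E3, ∀ c, c ∈ e → c ∈ f → e = f)

/-- Condition 2 occurs. -/
def Cond2 (G : AugGraph m n) : Prop :=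
  ∃ (i k : Fin m) (j l : Fin n), i ≠ k ∧ j ≠ l ∧
    G.Occupied (i, j) ∧ G.Occupied (i, l) ∧ G.Occupied (k, j) ∧ G.Occupied (k, l) ∧
    ∃ e ∈ G.E2 ∪ G.E3, ∃ f ∈ G.E2 ∪ G.E3, e ≠ f ∧
      ({(i, j), (i, l), (k, j), (k, l)} : Finset (Fin m × Fin n)) ⊆ e ∪ f ∧
      (e ∩ {(i, j), (i, l), (k, j), (k, l)}).card = 2 ∧
      (f ∩ {(i, j), (i, l), (k, j), (k, l)}).card = 2

/-- Condition 3 occurs. -/
def Cond3 (G : AugGraph m n) : Prop :=
  ∃ (i p k : Fin m) (j q l : Fin n), ({(i, j), (p, q)} : Finset (Fin m × Fin n)) ∈ G.E2 ∧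
    k ≠ i ∧ k ≠ p ∧ l ≠ j ∧ l ≠ q ∧
    G.Occupied12 (k, j) ∧ G.Occupied12 (k, l) ∧ G.Occupied12 (k, q) ∧
    G.Occupied12 (i, l) ∧ G.Occupied12 (p, l) ∧
    (i ≠ p ∧ j ≠ q → [(k, j), (k, l), (k, q), (i, l), (p, l)].Nodup)

/-- Condition 4 occurs. -/
def Cond4 (G : AugGraph m n) : Prop :=
  ∃ (i p u k : Fin m) (j q v l : Fin n),
    ({(i, j), (p, q), (u, v)} : Finset (Fin m × Fin n)) ∈ G.E3 ∧
    k ≠ i ∧ k ≠ p ∧ k ≠ u ∧ l ≠ j ∧ l ≠ q ∧ l ≠ v ∧
    G.Occupied (k, j) ∧ G.Occupied (k, l) ∧ G.Occupied (k, q) ∧ G.Occupied (k, v) ∧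
    G.Occupied (i, l) ∧ G.Occupied (p, l) ∧ G.Occupied (u, l) ∧
    ([i, p, u].Nodup ∧ [j, q, v].Nodup →
      [(k, j), (k, l), (k, q), (k, v), (i, l), (p, l), (u, l)].Nodup)

/-- None of the conditions 1 to 4 occurs. -/
def CycleFree (G : AugGraph m n) : Prop :=
  ¬ HasC4 G.E1 ∧ ¬ G.Cond2 ∧ ¬ G.Cond3 ∧ ¬ G.Cond4

/-- The total number of edges. -/
def size (G : AugGraph m n) : ℕ := G.E1.card + G.E2.card + G.E3.card

end AugGraph

/-- The Zarankiewicz number: the largest size of a set of cells avoiding condition 1. -/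
noncomputable def z (m n : ℕ) : ℕ :=
  sSup {s | ∃ E : Finset (Fin m × Fin n), ¬ HasC4 E ∧ E.card = s}

/-- The largest number of edges of a simple generalized cycle-free augmented graph. -/
noncomputable def z3A (m n : ℕ) : ℕ :=
  sSup {s | ∃ G : AugGraph m n, G.Simple ∧ G.CycleFree ∧ G.size = s}

/-- The same maximum over the graphs whose set of 1-edges has exactly `z m n` cells. -/
noncomputable def z3L (m n : ℕ) : ℕ :=
  sSup {s | ∃ G : AugGraph m n, G.Simple ∧ G.CycleFree ∧ G.E1.card = z m n ∧ G.size = s}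

end Pool.Agent.Lib.MP_10302a_co
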