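import Mathlib
import Pool.Agent.Lib.MP_10302a_co.Defs

set_option autoImplicit false

namespace Pool.Agent.Lib.MP_10302a_co

open Finset

theorem size_le {m n : ℕ} (G : AugGraph m n) :
    G.size ≤ Fintype.card (Fin m × Fin n) + Fintype.card (Finset (Fin m × Fin n))
      + Fintype.card (Finset (Fin m × Fin n)) := by
  unfold AugGraph.size
  have h1 := card_le_univ G.E1
  have h2 := card_le_univ G.E2
  have h3 := card_le_univ G.E3
  omega

theorem le_z3A {m n : ℕ} (G : AugGraph m n) (h1 : G.Simple) (h2 : G.CycleFree) :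
    G.size ≤ z3A m n := by
  unfold z3A
  refine le_csSup ⟨Fintype.card (Fin m × Fin n) + Fintype.card (Finset (Fin m × Fin n))
      + Fintype.card (Finset (Fin m × Fin n)), ?_⟩ ⟨G, h1, h2, rfl⟩
  rintro s ⟨G, -, -, rfl⟩
  exact size_le G

theorem le_z3L {m n : ℕ} (G : AugGraph m n) (h1 : G.Simple) (h2 : G.CycleFree)
    (h3 : G.E1.card = z m n) : G.size ≤ z3L m n := by
  unfold z3L
  refine le_csSup ⟨Fintype.card (Fin m × Fin n) + Fintype.card (Finset (Fin m × Fin n))
      + Fintype.card (Finset (Fin m × Fin n)), ?_⟩ ⟨G, h1, h2, h3, rfl⟩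
  rintro s ⟨G, -, -, -, rfl⟩
  exact size_le G

theorem le_one_add_choose_two (d : ℕ) : d ≤ 1 + d.choose 2 := by
  induction d with
  | zero => simp
  | succ d ih =>
    rw [Nat.choose_succ_succ' d 1, Nat.choose_one_right]
    rcases Nat.eq_zero_or_pos d with rfl | hd
    · simp
    · have : (1 + 1 : ℕ) = 2 := rfl
      rw [this]; omega

/-- A set of cells without condition 1 has at most `m + C(n,2)` cells. -/
theorem card_le_of_not_hasC4 {m n : ℕ} (E : Finset (Fin m × Fin n)) (h : ¬ HasC4 E) :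
    E.card ≤ m + n.choose 2 := by
  classical
  let N : Fin m → Finset (Fin n) := fun i => univ.filter (fun j => (i, j) ∈ E)
  have hE : E.card = ∑ i, (N i).card := by
    rw [card_eq_sum_card_fiberwise (f := Prod.fst) (t := univ) (by simp)]
    refine sum_congr rfl fun i _ => ?_
    refine card_bij (fun c _ => c.2) ?_ ?_ ?_
    · rintro ⟨a, b⟩ hc
      simp only [mem_filter] at hc
      obtain ⟨h1, rfl⟩ := hc
      simp [N, h1]
    · rintro ⟨a, b⟩ hc ⟨a', b'⟩ hc' hb
      simp only [mem_filter] at hc hc'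
      obtain ⟨-, rfl⟩ := hc
      obtain ⟨-, h2⟩ := hc'
      simp only at h2 hb
      simp [h2, hb]
    · intro b hb
      simp only [N, mem_filter, mem_univ, true_and] at hb
      exact ⟨(i, b), by simp [hb], rfl⟩
  have hdisj : ((univ : Finset (Fin m)) : Set (Fin m)).PairwiseDisjoint
      (fun i => powersetCard 2 (N i)) := by
    intro i _ k _ hik
    rw [Function.onFun, disjoint_left]
    intro S hS hS'
    rw [mem_powersetCard] at hS hS'
    obtain ⟨j, l, hjl, rfl⟩ := card_eq_two.1 hS.2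
    have a1 := hS.1 (mem_insert_self j {l})
    have a2 := hS.1 (mem_insert_of_mem (mem_singleton_self l))
    have a3 := hS'.1 (mem_insert_self j {l})
    have a4 := hS'.1 (mem_insert_of_mem (mem_singleton_self l))
    simp only [N, mem_filter, mem_univ, true_and] at a1 a2 a3 a4
    exact h ⟨i, k, j, l, hik, hjl, a1, a2, a3, a4⟩
  have hsum : ∑ i, ((N i).card).choose 2 ≤ n.choose 2 := by
    have h1 := card_biUnion hdisj
    simp only [card_powersetCard] at h1
    rw [← h1]
    have : (univ.biUnion fun i => powersetCard 2 (N i)) ⊆ powersetCard 2 (univ : Finset (Fin n)) := by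
      intro S hS
      rw [mem_biUnion] at hS
      obtain ⟨i, -, hi⟩ := hS
      rw [mem_powersetCard] at hi ⊢
      exact ⟨subset_univ _, hi.2⟩
    simpa [card_powersetCard] using card_le_card this
  calc E.card = ∑ i, (N i).card := hE
    _ ≤ ∑ i, (1 + ((N i).card).choose 2) := sum_le_sum fun i _ => le_one_add_choose_two _
    _ = m + ∑ i, ((N i).card).choose 2 := by simp [sum_add_distrib]
    _ ≤ m + n.choose 2 := by omega

theorem z_eq_of {m n : ℕ} (E : Finset (Fin m × Fin n)) (h : ¬ HasC4 E)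
    (hc : E.card = m + n.choose 2) : E.card = z m n := by
  unfold z
  apply le_antisymm
  · refine le_csSup ⟨m + n.choose 2, ?_⟩ ⟨E, h, rfl⟩
    rintro s ⟨F, hF, rfl⟩
    exact card_le_of_not_hasC4 F hF
  · refine csSup_le ⟨_, E, h, rfl⟩ ?_
    rintro s ⟨F, hF, rfl⟩
    rw [hc]
    exact card_le_of_not_hasC4 F hF

/-- Column labels. -/
abbrev Col (s : ℕ) := Bool × Option (Fin s)

/-- Row labels. -/
abbrev Row (s r : ℕ) := {S : Finset (Col s) // S ∈ powersetCard 2 (univ : Finset (Col s))} ⊕ (Bool × Fin r)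

/-- The 1-edges in terms of labels. -/
def one {s r : ℕ} : Row s r → Col s → Prop
  | Sum.inl S, b => b ∈ S.1
  | Sum.inr x, b => b = (x.1, none)

section construction

variable {s r m n : ℕ} (eA : Row s r ≃ Fin m) (eB : Col s ≃ Fin n)

/-- The 2-edge with parameters `x`, `a`. -/
def edge (p : Fin r × Fin s) : Finset (Fin m × Fin n) :=
  {(eA (Sum.inr (false, p.1)), eB (false, some p.2)), (eA (Sum.inr (true, p.1)), eB (true, some p.2))}

theorem mem_edge (p : Fin r × Fin s) (a : Row s r) (b : Col s) :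
    (eA a, eB b) ∈ edge eA eB p ↔ ∃ t : Bool, a = Sum.inr (t, p.1) ∧ b = (t, some p.2) := by
  simp [edge]

theorem edge_inj : Function.Injective (edge eA eB) := by
  rintro ⟨x, a⟩ ⟨y, b⟩ h
  have h1 : (eA (Sum.inr (false, x)), eB (false, some a)) ∈ edge eA eB (x, a) := by
    rw [mem_edge]; exact ⟨false, rfl, rfl⟩
  rw [h, mem_edge] at h1
  obtain ⟨t, h1, h2⟩ := h1
  simp only [Sum.inr.injEq, Prod.mk.injEq, Option.some.injEq] at h1 h2
  simp [h1.2, h2.2]

open Classical in
/-- The augmented graph. -/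
noncomputable def graph : AugGraph m n where
  E1 := univ.filter (fun c => one (eA.symm c.1) (eB.symm c.2))
  E2 := univ.image (edge eA eB)
  E3 := ∅
  card_E2 := by
    intro e he
    rw [mem_image] at he
    obtain ⟨p, -, rfl⟩ := he
    unfold edge
    rw [card_pair]
    simp
  card_E3 := by simp

theorem mem_E1 (a : Row s r) (b : Col s) : (eA a, eB b) ∈ (graph eA eB).E1 ↔ one a b := by
  simp [graph]

theorem mem_E2 (e : Finset (Fin m × Fin n)) :
    e ∈ (graph eA eB).E2 ↔ ∃ p, edge eA eB p = e := by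
  simp [graph]

theorem mem_E23 (e : Finset (Fin m × Fin n)) :
    e ∈ (graph eA eB).E2 ∪ (graph eA eB).E3 ↔ ∃ p, edge eA eB p = e := by
  simp [graph]

theorem card_E2 : (graph eA eB).E2.card = r * s := by
  simp only [graph]
  rw [card_image_of_injective _ (edge_inj eA eB)]
  simp

theorem simple : (graph eA eB).Simple := by
  constructor
  · rintro ⟨i, j⟩ hc e he hce
    obtain ⟨a, rfl⟩ := eA.surjective i
    obtain ⟨b, rfl⟩ := eB.surjective j
    rw [mem_E1] at hc
    obtain ⟨p, rfl⟩ := (mem_E23 eA eB e).1 he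
    rw [mem_edge] at hce
    obtain ⟨t, rfl, rfl⟩ := hce
    simp [one] at hc
  · rintro e he f hf ⟨i, j⟩ h1 h2
    obtain ⟨a, rfl⟩ := eA.surjective i
    obtain ⟨b, rfl⟩ := eB.surjective j
    obtain ⟨p, rfl⟩ := (mem_E23 eA eB e).1 he
    obtain ⟨q, rfl⟩ := (mem_E23 eA eB f).1 hf
    rw [mem_edge] at h1 h2
    obtain ⟨t, rfl, rfl⟩ := h1
    obtain ⟨t', h1, h2⟩ := h2
    simp only [Sum.inr.injEq, Prod.mk.injEq, Option.some.injEq] at h1 h2
    rw [show p = q from Prod.ext h1.2 h2.2]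

theorem pair_of_one (a : Row s r) (b c : Col s) (hbc : b ≠ c) (h1 : one a b) (h2 : one a c) :
    ∃ S, a = Sum.inl S ∧ S.1 = {b, c} := by
  rcases a with S | x
  · refine ⟨S, rfl, ?_⟩
    have hS := (mem_powersetCard.1 S.2).2
    symm
    apply eq_of_subset_of_card_le
    · intro y hy
      simp only [mem_insert, mem_singleton] at hy
      rcases hy with rfl | rfl
      · exact h1
      · exact h2
    · rw [hS, card_pair hbc]
  · simp only [one] at h1 h2
    exact absurd (h1.trans h2.symm) hbc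

theorem not_hasC4 : ¬ HasC4 (graph eA eB).E1 := by
  rintro ⟨i, k, j, l, hik, hjl, h1, h2, h3, h4⟩
  obtain ⟨a, rfl⟩ := eA.surjective i
  obtain ⟨a', rfl⟩ := eA.surjective k
  obtain ⟨b, rfl⟩ := eB.surjective j
  obtain ⟨b', rfl⟩ := eB.surjective l
  rw [mem_E1] at h1 h2 h3 h4
  have hb : b ≠ b' := fun h => hjl (by rw [h])
  obtain ⟨S, rfl, hS⟩ := pair_of_one a b b' hb h1 h2
  obtain ⟨S', rfl, hS'⟩ := pair_of_one a' b b' hb h3 h4
  apply hik
  rw [show S = S' from Subtype.ext (hS.trans hS'.symm)]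

theorem not_cond2 : ¬ (graph eA eB).Cond2 := by
  rintro ⟨i, k, j, l, hik, hjl, -, -, -, -, e, he, f, hf, -, hsub, -, -⟩
  obtain ⟨a, rfl⟩ := eA.surjective i
  obtain ⟨a', rfl⟩ := eA.surjective k
  obtain ⟨b, rfl⟩ := eB.surjective j
  obtain ⟨b', rfl⟩ := eB.surjective l
  obtain ⟨p, rfl⟩ := (mem_E23 eA eB e).1 he
  obtain ⟨q, rfl⟩ := (mem_E23 eA eB f).1 hf
  have ha : a ≠ a' := fun h => hik (by rw [h])
  have hb : b ≠ b' := fun h => hjl (by rw [h])
  have h1 : (eA a, eB b) ∈ edge eA eB p ∪ edge eA eB q := hsub (by simp)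
  have h2 : (eA a, eB b') ∈ edge eA eB p ∪ edge eA eB q := hsub (by simp)
  have h3 : (eA a', eB b) ∈ edge eA eB p ∪ edge eA eB q := hsub (by simp)
  simp only [mem_union, mem_edge] at h1 h2 h3
  rcases h1 with ⟨t1, h1, h1'⟩ | ⟨t1, h1, h1'⟩ <;>
  rcases h2 with ⟨t2, h2, h2'⟩ | ⟨t2, h2, h2'⟩ <;>
  rcases h3 with ⟨t3, h3, h3'⟩ | ⟨t3, h3, h3'⟩ <;>
  simp_all

theorem occ12 (x : Bool × Fin r) (b : Col s)
    (h : (graph eA eB).Occupied12 (eA (Sum.inr x), eB b)) : b.1 = x.1 := by
  rcases h with h | ⟨e, he, h⟩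
  · rw [mem_E1] at h
    simp only [one] at h
    rw [h]
  · obtain ⟨p, rfl⟩ := (mem_E2 eA eB e).1 he
    rw [mem_edge] at h
    obtain ⟨t, h1, rfl⟩ := h
    simp only [Sum.inr.injEq] at h1
    rw [h1]

theorem not_cond3 : ¬ (graph eA eB).Cond3 := by
  rintro ⟨i, p, k, j, q, l, he, -, -, -, -, -, -, -, h4, h5, -⟩
  obtain ⟨w, hw⟩ := (mem_E2 eA eB _).1 he
  have hc := (graph eA eB).card_E2 _ he
  obtain ⟨a, rfl⟩ := eA.surjective i
  obtain ⟨a', rfl⟩ := eA.surjective p
  obtain ⟨b, rfl⟩ := eB.surjective j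
  obtain ⟨b', rfl⟩ := eB.surjective q
  obtain ⟨c, rfl⟩ := eB.surjective l
  have h1 : (eA a, eB b) ∈ edge eA eB w := by rw [hw]; simp
  have h2 : (eA a', eB b') ∈ edge eA eB w := by rw [hw]; simp
  rw [mem_edge] at h1 h2
  obtain ⟨t, rfl, rfl⟩ := h1
  obtain ⟨t', rfl, rfl⟩ := h2
  have e1 := occ12 eA eB _ _ h4
  have e2 := occ12 eA eB _ _ h5
  simp only at e1 e2
  have : t = t' := e1.symm.trans e2
  subst this
  simp at hc

theorem not_cond4 : ¬ (graph eA eB).Cond4 := by
  rintro ⟨i, p, u, k, j, q, v, l, he, -⟩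
  simp [graph] at he

theorem cycleFree : (graph eA eB).CycleFree :=
  ⟨not_hasC4 eA eB, not_cond2 eA eB, not_cond3 eA eB, not_cond4 eA eB⟩

theorem card_E1 : (graph eA eB).E1.card = m + n.choose 2 := by
  classical
  have hn : Fintype.card (Col s) = n := by simpa using Fintype.card_congr eB
  have hm : Fintype.card (Row s r) = m := by simpa using Fintype.card_congr eA
  have hP : Fintype.card {S : Finset (Col s) // S ∈ powersetCard 2 (univ : Finset (Col s))}
      = n.choose 2 := by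
    rw [Fintype.card_coe, card_powersetCard, card_univ, hn]
  have h1 : (graph eA eB).E1.card = ∑ a : Row s r, (univ.filter (fun b : Col s => one a b)).card := by
    have : (graph eA eB).E1 = (univ.filter (fun c : Row s r × Col s => one c.1 c.2)).map
        (eA.prodCongr eB).toEmbedding := by
      ext ⟨i, j⟩
      obtain ⟨a, rfl⟩ := eA.surjective i
      obtain ⟨b, rfl⟩ := eB.surjective j
      rw [mem_E1]
      simp
    rw [this, card_map, card_filter, Fintype.sum_prod_type]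
    simp only [card_filter]
  rw [h1, Fintype.sum_sum_type]
  have h2 : ∀ S : {S : Finset (Col s) // S ∈ powersetCard 2 (univ : Finset (Col s))},
      (univ.filter (fun b : Col s => one (Sum.inl S : Row s r) b)).card = 2 := by
    intro S
    have hS := (mem_powersetCard.1 S.2).2
    refine Eq.trans ?_ hS
    congr 1
    ext b
    simp [one]
  have h3 : ∀ x : Bool × Fin r,
      (univ.filter (fun b : Col s => one (Sum.inr x : Row s r) b)).card = 1 := by
    intro x
    rw [card_eq_one]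
    refine ⟨(x.1, none), ?_⟩
    ext b
    simp [one]
  simp only [h2, h3, sum_const, card_univ, smul_eq_mul, hP]
  rw [Fintype.card_sum, hP] at hm
  omega

end construction

/-- The lower bound for `z3L` along the family `n = 2(s+1)`, `m = C(n,2) + 2r`. -/
theorem z3L_ge (s r : ℕ) : r * s ≤ z3L ((2 * (s + 1)).choose 2 + 2 * r) (2 * (s + 1)) := by
  have hn : Fintype.card (Col s) = 2 * (s + 1) := by simp
  have hm : Fintype.card (Row s r) = (2 * (s + 1)).choose 2 + 2 * r := by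
    rw [Fintype.card_sum, Fintype.card_coe, card_powersetCard, card_univ, hn]
    simp
  let eA := Fintype.equivFinOfCardEq hm
  let eB := Fintype.equivFinOfCardEq hn
  have h := le_z3L (graph eA eB) (simple eA eB) (cycleFree eA eB)
    (z_eq_of _ (not_hasC4 eA eB) (card_E1 eA eB))
  have h2 := card_E2 eA eB
  unfold AugGraph.size at h
  omega

section blocks

variable {s r m n : ℕ} (eA : Bool × Fin r ↪ Fin m) (eB : Bool × Fin s ↪ Fin n)

/-- The 2-edge of the two-block graph. -/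
def bedge (p : Fin r × Fin s) : Finset (Fin m × Fin n) :=
  {(eA (false, p.1), eB (false, p.2)), (eA (true, p.1), eB (true, p.2))}

theorem mem_bedge (p : Fin r × Fin s) (i : Fin m) (j : Fin n) :
    (i, j) ∈ bedge eA eB p ↔ ∃ t : Bool, i = eA (t, p.1) ∧ j = eB (t, p.2) := by
  simp [bedge]

theorem bedge_inj : Function.Injective (bedge eA eB) := by
  rintro ⟨x, a⟩ ⟨y, b⟩ h
  have h1 : (eA (false, x), eB (false, a)) ∈ bedge eA eB (x, a) := by
    rw [mem_bedge]; exact ⟨false, rfl, rfl⟩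
  rw [h, mem_bedge] at h1
  obtain ⟨t, h1, h2⟩ := h1
  simp only [EmbeddingLike.apply_eq_iff_eq, Prod.mk.injEq] at h1 h2
  simp [h1.2, h2.2]

/-- The two-block graph. -/
noncomputable def bgraph : AugGraph m n where
  E1 := ∅
  E2 := univ.image (bedge eA eB)
  E3 := ∅
  card_E2 := by
    intro e he
    rw [mem_image] at he
    obtain ⟨p, -, rfl⟩ := he
    unfold bedge
    rw [card_pair]
    simp
  card_E3 := by simp

theorem bmem_E2 (e : Finset (Fin m × Fin n)) :
    e ∈ (bgraph eA eB).E2 ↔ ∃ p, bedge eA eB p = e := by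
  simp [bgraph]

theorem bmem_E23 (e : Finset (Fin m × Fin n)) :
    e ∈ (bgraph eA eB).E2 ∪ (bgraph eA eB).E3 ↔ ∃ p, bedge eA eB p = e := by
  simp [bgraph]

theorem bcard_E2 : (bgraph eA eB).E2.card = r * s := by
  simp only [bgraph]
  rw [card_image_of_injective _ (bedge_inj eA eB)]
  simp

theorem bsimple : (bgraph eA eB).Simple := by
  constructor
  · simp [bgraph]
  · rintro e he f hf ⟨i, j⟩ h1 h2
    obtain ⟨p, rfl⟩ := (bmem_E23 eA eB e).1 he
    obtain ⟨q, rfl⟩ := (bmem_E23 eA eB f).1 hf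
    rw [mem_bedge] at h1 h2
    obtain ⟨t, rfl, rfl⟩ := h1
    obtain ⟨t', h1, h2⟩ := h2
    simp only [EmbeddingLike.apply_eq_iff_eq, Prod.mk.injEq] at h1 h2
    rw [show p = q from Prod.ext h1.2 h2.2]

theorem bnot_cond2 : ¬ (bgraph eA eB).Cond2 := by
  rintro ⟨i, k, j, l, hik, hjl, -, -, -, -, e, he, f, hf, -, hsub, -, -⟩
  obtain ⟨p, rfl⟩ := (bmem_E23 eA eB e).1 he
  obtain ⟨q, rfl⟩ := (bmem_E23 eA eB f).1 hf
  have h1 : (i, j) ∈ bedge eA eB p ∪ bedge eA eB q := hsub (by simp)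
  have h2 : (i, l) ∈ bedge eA eB p ∪ bedge eA eB q := hsub (by simp)
  have h3 : (k, j) ∈ bedge eA eB p ∪ bedge eA eB q := hsub (by simp)
  simp only [mem_union, mem_bedge] at h1 h2 h3
  rcases h1 with ⟨t1, h1, h1'⟩ | ⟨t1, h1, h1'⟩ <;>
  rcases h2 with ⟨t2, h2, h2'⟩ | ⟨t2, h2, h2'⟩ <;>
  rcases h3 with ⟨t3, h3, h3'⟩ | ⟨t3, h3, h3'⟩ <;>
  simp_all

theorem bocc12 (x : Bool × Fin r) (j : Fin n)
    (h : (bgraph eA eB).Occupied12 (eA x, j)) : ∃ a, j = eB (x.1, a) := by
  rcases h with h | ⟨e, he, h⟩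
  · simp [bgraph] at h
  · obtain ⟨p, rfl⟩ := (bmem_E2 eA eB e).1 he
    rw [mem_bedge] at h
    obtain ⟨t, h1, rfl⟩ := h
    simp only [EmbeddingLike.apply_eq_iff_eq] at h1
    exact ⟨p.2, by rw [h1]⟩

theorem bnot_cond3 : ¬ (bgraph eA eB).Cond3 := by
  rintro ⟨i, p, k, j, q, l, he, -, -, -, -, -, -, -, h4, h5, -⟩
  obtain ⟨w, hw⟩ := (bmem_E2 eA eB _).1 he
  have hc := (bgraph eA eB).card_E2 _ he
  have h1 : (i, j) ∈ bedge eA eB w := by rw [hw]; simp
  have h2 : (p, q) ∈ bedge eA eB w := by rw [hw]; simp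
  rw [mem_bedge] at h1 h2
  obtain ⟨t, rfl, rfl⟩ := h1
  obtain ⟨t', rfl, rfl⟩ := h2
  obtain ⟨a, e1⟩ := bocc12 eA eB _ _ h4
  obtain ⟨b, e2⟩ := bocc12 eA eB _ _ h5
  rw [e1] at e2
  simp only [EmbeddingLike.apply_eq_iff_eq, Prod.mk.injEq] at e2
  have : t = t' := e2.1
  subst this
  simp at hc

theorem bcycleFree : (bgraph eA eB).CycleFree := by
  refine ⟨?_, bnot_cond2 eA eB, bnot_cond3 eA eB, ?_⟩
  · rintro ⟨i, k, j, l, -, -, h, -⟩
    simp [bgraph] at h
  · rintro ⟨i, p, u, k, j, q, v, l, he, -⟩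
    simp [bgraph] at he

end blocks

theorem z3A_ge (m n : ℕ) : (m / 2) * (n / 2) ≤ z3A m n := by
  obtain ⟨eA⟩ : Nonempty (Bool × Fin (m / 2) ↪ Fin m) :=
    Function.Embedding.nonempty_of_card_le (by simp; omega)
  obtain ⟨eB⟩ : Nonempty (Bool × Fin (n / 2) ↪ Fin n) :=
    Function.Embedding.nonempty_of_card_le (by simp; omega)
  have h := le_z3A (bgraph eA eB) (bsimple eA eB) (bcycleFree eA eB)
  have h2 := bcard_E2 eA eB
  unfold AugGraph.size at h
  omega

end Pool.Agent.Lib.MP_10302a_co
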