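import Mathlib
import Pool.Agent.Lib.MP_10302a_co.Main

/-! The limited number `z3L m n` is of order `m n`. -/

set_option autoImplicit false

namespace Pool.Agent.Lib.MP_10302a_co.Order

open Finset

variable {m n : ℕ}

/-- The columns of the cells of `E` in row `i`. -/
def row (E : Finset (Fin m × Fin n)) (i : Fin m) : Finset (Fin n) := univ.filter fun j => (i, j) ∈ E

/-- The rows of the cells of `E` in column `j`. -/
def col (E : Finset (Fin m × Fin n)) (j : Fin n) : Finset (Fin m) := univ.filter fun i => (i, j) ∈ E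

@[simp] theorem mem_row {E : Finset (Fin m × Fin n)} {i : Fin m} {j : Fin n} :
    j ∈ row E i ↔ (i, j) ∈ E := by simp [row]

@[simp] theorem mem_col {E : Finset (Fin m × Fin n)} {i : Fin m} {j : Fin n} :
    i ∈ col E j ↔ (i, j) ∈ E := by simp [col]

theorem sum_row (E : Finset (Fin m × Fin n)) : ∑ i, (row E i).card = E.card := by
  simp only [row, card_filter]
  rw [← Fintype.sum_prod_type', ← card_filter]
  simp

theorem sum_col (E : Finset (Fin m × Fin n)) : ∑ j, (col E j).card = E.card := by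
  simp only [col, card_filter]
  rw [sum_comm, ← Fintype.sum_prod_type', ← card_filter]
  simp

theorem markov {k : ℕ} (g : Fin k → ℕ) (a b : ℕ) :
    (univ.filter fun i => a < b * g i).card * a ≤ b * ∑ i, g i := by
  rw [mul_sum, ← smul_eq_mul]
  refine (card_nsmul_le_sum _ (fun i => b * g i) _ fun i hi => (mem_filter.1 hi).2.le).trans ?_
  exact sum_le_sum_of_subset (subset_univ _)

/-- A family of 3-edges that can be added to `E`. -/
structure Fam (E : Finset (Fin m × Fin n)) {ι : Type} (f : ι → Fin 3 → Fin m × Fin n) : Prop where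
  inj : ∀ a r b t, f a r = f b t → a = b ∧ r = t
  out : ∀ a r, f a r ∉ E
  two : ∀ a b i k j l, i ≠ k → j ≠ l → (∃ r, f a r = (i, j) ∨ f b r = (i, j)) →
    (∃ r, f a r = (i, l) ∨ f b r = (i, l)) → (∃ r, f a r = (k, j) ∨ f b r = (k, j)) →
    (∃ r, f a r = (k, l) ∨ f b r = (k, l)) → False
  four : (∀ a k, ∃ r, (k, (f a r).2) ∉ E ∧ ∀ b t, f b t ≠ (k, (f a r).2)) ∨
    (∀ a l, ∃ r, ((f a r).1, l) ∉ E ∧ ∀ b t, f b t ≠ ((f a r).1, l))

theorem Fam.le {E : Finset (Fin m × Fin n)} (h4 : ¬ HasC4 E) (hz : E.card = z m n) {ι : Type}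
    [Fintype ι] {f : ι → Fin 3 → Fin m × Fin n} (h : Fam E f) : Fintype.card ι ≤ z3L m n := by
  classical
  have fi : ∀ a, Function.Injective (f a) := fun a r t e => (h.inj a r a t e).2
  have ei : Function.Injective fun a => univ.image (f a) := fun a b e => by
    have : f a 0 ∈ univ.image (f b) := (show univ.image (f a) = univ.image (f b) from e) ▸
      mem_image_of_mem _ (mem_univ 0)
    obtain ⟨t, -, ht⟩ := mem_image.1 this
    exact (h.inj b t a 0 ht).1.symm
  let G : AugGraph m n :=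
    ⟨E, ∅, univ.image fun a => univ.image (f a), by simp, fun e he => by
      obtain ⟨a, -, rfl⟩ := mem_image.1 he
      rw [card_image_of_injective _ (fi a)]
      simp⟩
  have mE : ∀ e, e ∈ G.E2 ∪ G.E3 → ∃ a, univ.image (f a) = e := fun e he => by
    simpa [G] using he
  have occ : ∀ c, G.Occupied c → c ∉ E → (∀ b t, f b t ≠ c) → False := by
    rintro c (hc | ⟨e, he, -⟩ | ⟨e, he, hc⟩) h1 h2
    · exact h1 hc
    · simp [G] at he
    · obtain ⟨b, -, rfl⟩ := mem_image.1 he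
      obtain ⟨t, -, ht⟩ := mem_image.1 hc
      exact h2 b t ht
  have key := le_z3L G ⟨fun c hc e he hce => ?_, fun e he e' he' c hc hc' => ?_⟩
    ⟨h4, ?_, ?_, ?_⟩ hz
  · refine le_trans ?_ key
    have : G.E3.card = Fintype.card ι := by
      rw [show G.E3 = univ.image fun a => univ.image (f a) from rfl, card_image_of_injective _ ei]
      simp
    unfold AugGraph.size
    omega
  · obtain ⟨a, rfl⟩ := mE e he
    obtain ⟨r, -, rfl⟩ := mem_image.1 hce
    exact h.out a r hc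
  · obtain ⟨a, rfl⟩ := mE e he
    obtain ⟨b, rfl⟩ := mE e' he'
    obtain ⟨r, -, rfl⟩ := mem_image.1 hc
    obtain ⟨t, -, ht⟩ := mem_image.1 hc'
    rw [(h.inj b t a r ht).1]
  · rintro ⟨i, k, j, l, hik, hjl, -, -, -, -, e, he, e', he', -, hs, -, -⟩
    obtain ⟨a, rfl⟩ := mE e he
    obtain ⟨b, rfl⟩ := mE e' he'
    have : ∀ c ∈ ({(i, j), (i, l), (k, j), (k, l)} : Finset (Fin m × Fin n)),
        ∃ r, f a r = c ∨ f b r = c := fun c hc => by
      rcases mem_union.1 (hs hc) with h1 | h1 <;> obtain ⟨r, -, hr⟩ := mem_image.1 h1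
      exacts [⟨r, Or.inl hr⟩, ⟨r, Or.inr hr⟩]
    exact h.two a b i k j l hik hjl (this _ (by simp)) (this _ (by simp)) (this _ (by simp))
      (this _ (by simp))
  · rintro ⟨i, p, k, j, q, l, he, -⟩
    simp [G] at he
  · rintro ⟨i, p, u, k, j, q, v, l, he, -, -, -, -, -, -, o1, -, o2, o3, o4, o5, o6, -⟩
    obtain ⟨a, -, ha⟩ := mem_image.1 he
    have mem : ∀ r, f a r = (i, j) ∨ f a r = (p, q) ∨ f a r = (u, v) := fun r => by
      have : f a r ∈ univ.image (f a) := mem_image_of_mem _ (mem_univ r)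
      rw [ha] at this
      simpa using this
    rcases h.four with h5 | h5
    · obtain ⟨r, h6, h7⟩ := h5 a k
      rcases mem r with e | e | e <;> rw [e] at h6 h7
      exacts [occ _ o1 h6 h7, occ _ o2 h6 h7, occ _ o3 h6 h7]
    · obtain ⟨r, h6, h7⟩ := h5 a l
      rcases mem r with e | e | e <;> rw [e] at h6 h7
      exacts [occ _ o4 h6 h7, occ _ o5 h6 h7, occ _ o6 h6 h7]

/-- The transposed set of cells. -/
def tr (E : Finset (Fin m × Fin n)) : Finset (Fin n × Fin m) := univ.filter fun c => c.swap ∈ E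

@[simp] theorem mem_tr {E : Finset (Fin m × Fin n)} {c : Fin n × Fin m} :
    c ∈ tr E ↔ c.swap ∈ E := by simp [tr]

theorem Fam.swap {E : Finset (Fin m × Fin n)} {ι : Type} {f : ι → Fin 3 → Fin n × Fin m}
    (h : Fam (tr E) f) : Fam E fun a r => (f a r).swap := by
  have e : ∀ (c : Fin n × Fin m) (i : Fin m) (j : Fin n), c.swap = (i, j) ↔ c = (j, i) :=
    fun c i j => ⟨fun h => by rw [← Prod.swap_swap c, h]; rfl, fun h => by rw [h]; rfl⟩
  refine ⟨fun a r b t h1 => h.inj a r b t (Prod.swap_injective h1),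
    fun a r h1 => h.out a r (mem_tr.2 h1), fun a b i k j l hik hjl h1 h2 h3 h4 => ?_, ?_⟩
  · simp only [e] at h1 h2 h3 h4
    exact h.two a b j l i k hjl hik h1 h3 h2 h4
  · refine h.four.symm.imp (fun h1 a k => ?_) fun h1 a l => ?_
    · obtain ⟨r, h2, h3⟩ := h1 a k
      exact ⟨r, fun h4 => h2 (mem_tr.2 h4), fun b t h4 => h3 b t ((e _ _ _).1 h4)⟩
    · obtain ⟨r, h2, h3⟩ := h1 a l
      exact ⟨r, fun h4 => h2 (mem_tr.2 h4), fun b t h4 => h3 b t ((e _ _ _).1 h4)⟩

theorem triple {E : Finset (Fin m × Fin n)} (h4 : ¬ HasC4 E) {D : ℕ}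
    (hD : ∀ i, (row E i).card ≤ D) {S : Finset (Fin n)} (hS : D + 3 ≤ S.card) :
    ∃ g : Fin 3 → Fin n, Function.Injective g ∧ (∀ r, g r ∈ S) ∧ ∀ k, ∃ r, (k, g r) ∉ E := by
  obtain ⟨j, q, w, hj, hq, hw, jq, jw, qw⟩ := two_lt_card_iff.1 (show 2 < S.card by omega)
  have fin : ∀ v ∈ S, j ≠ v → q ≠ v → (∀ k, (k, j) ∈ E → (k, q) ∈ E → (k, v) ∉ E) →
      ∃ g : Fin 3 → Fin n, Function.Injective g ∧ (∀ r, g r ∈ S) ∧ ∀ k, ∃ r, (k, g r) ∉ E := by
    intro v hv jv qv h
    refine ⟨![j, q, v], fun r t e => ?_, fun r => ?_, fun k => ?_⟩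
    · fin_cases r <;> fin_cases t <;> simp_all
    · fin_cases r <;> simpa
    · by_contra hn
      push Not at hn
      exact h k (hn 0) (hn 1) (hn 2)
  by_cases c : ∃ k, (k, j) ∈ E ∧ (k, q) ∈ E
  · obtain ⟨k₀, h1, h2⟩ := c
    obtain ⟨v, hv, hv'⟩ := exists_mem_notMem_of_card_lt_card
      (show (row E k₀).card < S.card by have := hD k₀; omega)
    rw [mem_row] at hv'
    refine fin v hv (fun e => hv' (e ▸ h1)) (fun e => hv' (e ▸ h2)) fun k h5 h6 h7 => ?_
    by_cases e : k = k₀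
    · exact hv' (e ▸ h7)
    · exact h4 ⟨k, k₀, j, q, e, jq, h5, h6, h1, h2⟩
  · exact fin w hw jw qw fun k h5 h6 _ => c ⟨k, h5, h6⟩

theorem triples {E : Finset (Fin m × Fin n)} (h4 : ¬ HasC4 E) {D : ℕ}
    (hD : ∀ i, (row E i).card ≤ D) (T : ℕ) : ∀ S : Finset (Fin n), D + 3 + 3 * T ≤ S.card →
    ∃ ψ : ℕ → Fin 3 → Fin n, (∀ t < T, ∀ r, ψ t r ∈ S) ∧
      (∀ t < T, ∀ t' < T, ∀ r r', ψ t r = ψ t' r' → t = t' ∧ r = r') ∧
      ∀ t < T, ∀ k, ∃ r, (k, ψ t r) ∉ E := by
  induction T with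
  | zero =>
    intro S hS
    obtain ⟨g, -⟩ := triple h4 hD (S := S) (by omega)
    exact ⟨fun _ => g, by simp, by simp, by simp⟩
  | succ T ih =>
    intro S hS
    obtain ⟨g, g1, g2, g3⟩ := triple h4 hD (S := S) (by omega)
    have c1 : (univ.image g).card ≤ 3 := card_image_le.trans (by simp)
    have c2 := le_card_sdiff (univ.image g) S
    obtain ⟨ψ, p1, p2, p3⟩ := ih (S \ univ.image g) (by omega)
    have ne : ∀ t < T, ∀ r r', ψ t r ≠ g r' := fun t ht r r' e =>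
      (mem_sdiff.1 (p1 t ht r)).2 (e ▸ mem_image_of_mem _ (mem_univ _))
    refine ⟨fun t => if t < T then ψ t else g, fun t _ r => ?_, fun t ht t' ht' r r' => ?_,
      fun t _ k => ?_⟩ <;> beta_reduce
    · split_ifs with c
      exacts [(mem_sdiff.1 (p1 t c r)).1, g2 r]
    · split_ifs with c c' c'
      · exact p2 t c t' c' r r'
      · exact fun e => (ne t c r r' e).elim
      · exact fun e => (ne t' c' r' r e.symm).elim
      · exact fun e => ⟨by omega, g1 e⟩
    · split_ifs with c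
      exacts [p3 t c k, g3 k]

/-- The construction when no row is more than half full. -/
theorem build {E : Finset (Fin m × Fin n)} (h4 : ¬ HasC4 E) (hE : 1000 * E.card < m * n)
    (hn : 1000 < n) (hD : ∀ i, 2 * (row E i).card ≤ n) :
    ∃ f : Fin (n / 10) × Fin (m / 5) → Fin 3 → Fin m × Fin n, Fam E f := by
  have m0 : 0 < m := Nat.pos_of_ne_zero fun h => by simp [h] at hE
  have mk := markov (fun j => (col E j).card) m 8
  rw [sum_col] at mk
  have c1 : 125 * (univ.filter fun j => m < 8 * (col E j).card).card < n :=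
    lt_of_mul_lt_mul_left (a := m) (by nlinarith) m0.le
  have c2 := card_filter_add_card_filter_not (s := (univ : Finset (Fin n)))
    (fun j => m < 8 * (col E j).card)
  rw [card_univ, Fintype.card_fin] at c2
  obtain ⟨ψ, p1, p2, p3⟩ := triples h4 (D := n / 2) (fun i => by have := hD i; omega) (n / 10)
    (univ.filter fun j => ¬ m < 8 * (col E j).card) (by omega)
  have ex : ∀ t : Fin (n / 10), ∃ φ : Fin (m / 5) × Fin 3 → Fin m, Function.Injective φ ∧
      ∀ x r, (φ x, ψ t r) ∉ E := fun t => by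
    have d := fun r => not_lt.1 (mem_filter.1 (p1 t t.2 r)).2
    have c3 := card_union_le (col E (ψ t 0) ∪ col E (ψ t 1)) (col E (ψ t 2))
    have c4 := card_union_le (col E (ψ t 0)) (col E (ψ t 1))
    have c5 := card_compl (col E (ψ t 0) ∪ col E (ψ t 1) ∪ col E (ψ t 2))
    rw [Fintype.card_fin] at c5
    obtain ⟨φ⟩ := Function.Embedding.nonempty_of_card_le (α := Fin (m / 5) × Fin 3)
      (β := ((col E (ψ t 0) ∪ col E (ψ t 1) ∪ col E (ψ t 2))ᶜ : Finset (Fin m))) (by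
        have := d 0
        have := d 1
        have := d 2
        rw [Fintype.card_coe, Fintype.card_prod, Fintype.card_fin, Fintype.card_fin]
        omega)
    refine ⟨fun x => φ x, fun x y e => φ.injective (Subtype.ext e), fun x r => ?_⟩
    have := mem_compl.1 (φ x).2
    simp only [mem_union, mem_col, not_or] at this
    fin_cases r
    exacts [this.1.1, this.1.2, this.2]
  choose φ q1 q2 using ex
  have colE : ∀ (t t' : Fin (n / 10)) r r', ψ t r = ψ t' r' → t = t' ∧ r = r' := fun t t' r r' e =>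
    ⟨Fin.ext (p2 t t.2 t' t'.2 r r' e).1, (p2 t t.2 t' t'.2 r r' e).2⟩
  refine ⟨fun a r => (φ a.1 (a.2, r), ψ a.1 r), ?_, fun a r => q2 _ _ _, ?_, Or.inl ?_⟩
  · rintro ⟨t, a⟩ r ⟨t', b⟩ r' e
    obtain ⟨e1, e2⟩ := Prod.mk.inj e
    obtain ⟨rfl, rfl⟩ := colE _ _ _ _ e2
    exact ⟨Prod.ext rfl (Prod.mk.inj (q1 t e1)).1, rfl⟩
  · rintro ⟨t, a⟩ ⟨t', b⟩ i k j l hik hjl ⟨r1, h1⟩ ⟨r2, h2⟩ ⟨r3, h3⟩ -
    simp only [Prod.mk.injEq] at h1 h2 h3
    have same : ∀ (s : Fin (n / 10)) x y r r', φ s (x, r) = i → φ s (y, r') = i → ψ s r = j →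
        ψ s r' = l → False := fun s x y r r' e1 e2 e3 e4 => by
      have := (Prod.mk.inj (q1 s (e1.trans e2.symm))).2
      subst this
      exact hjl (e3.symm.trans e4)
    rcases h1 with ⟨a1, b1⟩ | ⟨a1, b1⟩ <;> rcases h2 with ⟨a2, b2⟩ | ⟨a2, b2⟩
    · exact same _ _ _ _ _ a1 a2 b1 b2
    · rcases h3 with ⟨a3, b3⟩ | ⟨a3, b3⟩
      · obtain ⟨-, rfl⟩ := colE _ _ _ _ (b1.trans b3.symm)
        exact hik (a1.symm.trans a3)
      · obtain ⟨rfl, -⟩ := colE _ _ _ _ (b1.trans b3.symm)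
        exact same _ _ _ _ _ a1 a2 b1 b2
    · rcases h3 with ⟨a3, b3⟩ | ⟨a3, b3⟩
      · obtain ⟨rfl, -⟩ := colE _ _ _ _ (b1.trans b3.symm)
        exact same _ _ _ _ _ a1 a2 b1 b2
      · obtain ⟨-, rfl⟩ := colE _ _ _ _ (b1.trans b3.symm)
        exact hik (a1.symm.trans a3)
    · exact same _ _ _ _ _ a1 a2 b1 b2
  · rintro ⟨t, a⟩ k
    by_contra hn
    push Not at hn
    obtain ⟨r, hr⟩ := p3 t t.2 k
    obtain ⟨⟨t', b⟩, r', e⟩ := hn r hr
    obtain ⟨e1, e2⟩ := Prod.mk.inj e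
    obtain ⟨rfl, rfl⟩ := colE _ _ _ _ e2
    obtain ⟨⟨t'', b'⟩, r'', e'⟩ := hn (r' + 1) (e1 ▸ q2 _ _ _)
    obtain ⟨e3, e4⟩ := Prod.mk.inj e'
    obtain ⟨rfl, rfl⟩ := colE _ _ _ _ e4
    simpa using (Prod.mk.inj (q1 _ (e3.trans e1.symm))).2

/-- Nine cells in a four by four grid without a rectangle. -/
def pat : Finset (Fin 4 × Fin 4) :=
  {(0, 1), (0, 2), (0, 3), (1, 1), (2, 2), (3, 3), (1, 0), (2, 0), (3, 0)}

theorem pat_free : ¬ HasC4 pat := by
  unfold HasC4 pat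
  decide

/-- A sparse set with a more than half full row and a more than half full column is not extremal. -/
theorem exchange {E : Finset (Fin m × Fin n)} (h4 : ¬ HasC4 E) (hE : 1000 * E.card < m * n)
    (hm : 1000 < m) (hn : 1000 < n) {k₀ : Fin m} {l₀ : Fin n} (hk : n < 2 * (row E k₀).card)
    (hl : m < 2 * (col E l₀).card) :
    ∃ E' : Finset (Fin m × Fin n), ¬ HasC4 E' ∧ E.card < E'.card := by
  classical
  set B : Finset (Fin m × Fin n) := univ.filter fun c => (c.1, l₀) ∈ E ∧ (k₀, c.2) ∈ E ∧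
    ∃ x : Fin m × Fin n, x ∈ E ∧ x.1 ≠ k₀ ∧ x.2 ≠ l₀ ∧ (c.1, x.2) ∈ E ∧ (x.1, c.2) ∈ E with hB
  have cB : B.card ≤ E.card := by
    have ch : ∀ c : B, ∃ x : Fin m × Fin n, x ∈ E ∧ x.1 ≠ k₀ ∧ x.2 ≠ l₀ ∧ (c.1.1, x.2) ∈ E ∧
        (x.1, c.1.2) ∈ E := fun c => (mem_filter.1 c.2).2.2.2
    choose x x1 x2 x3 x4 x5 using ch
    rw [← Fintype.card_coe B, ← Fintype.card_coe E]
    refine Fintype.card_le_of_injective (fun c => ⟨x c, x1 c⟩) fun c c' e => ?_
    have e' : x c = x c' := congrArg Subtype.val e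
    have b := (mem_filter.1 c.2).2
    have b' := (mem_filter.1 c'.2).2
    refine Subtype.ext (Prod.ext ?_ ?_)
    · by_contra ne
      exact h4 ⟨_, _, _, _, ne, x3 c, x4 c, b.1, e' ▸ x4 c', b'.1⟩
    · by_contra ne
      exact h4 ⟨_, _, _, _, x2 c, ne, x5 c, e' ▸ x5 c', b.2.1, b'.2.1⟩
  have mk := markov (fun i => (row B i).card) n 100
  rw [sum_row] at mk
  have c1 : 10 * (univ.filter fun i => n < 100 * (row B i).card).card < m :=
    lt_of_mul_lt_mul_left (a := n) (by nlinarith) (by omega)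
  have c2 := le_card_sdiff (insert k₀ (univ.filter fun i => n < 100 * (row B i).card)) (col E l₀)
  have c3 := card_insert_le k₀ (univ.filter fun i => n < 100 * (row B i).card)
  obtain ⟨ρ⟩ := Function.Embedding.nonempty_of_card_le (α := Fin 4)
    (β := (col E l₀ \ insert k₀ (univ.filter fun i => n < 100 * (row B i).card) : Finset (Fin m)))
    (by rw [Fintype.card_coe, Fintype.card_fin]; omega)
  have r1 : ∀ a, ((ρ a).1, l₀) ∈ E ∧ (ρ a).1 ≠ k₀ ∧ 100 * (row B (ρ a).1).card ≤ n := fun a => by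
    simpa only [mem_sdiff, mem_col, mem_insert, mem_filter, mem_univ, true_and, not_or, not_lt]
      using (ρ a).2
  have c4 := le_card_sdiff (insert l₀ (univ.biUnion fun a => row B (ρ a).1)) (row E k₀)
  have c5 := card_insert_le l₀ (univ.biUnion fun a => row B (ρ a).1)
  have c6 := card_biUnion_le (s := (univ : Finset (Fin 4))) (t := fun a => row B (ρ a).1)
  rw [Fin.sum_univ_four] at c6
  obtain ⟨γ⟩ := Function.Embedding.nonempty_of_card_le (α := Fin 4)
    (β := (row E k₀ \ insert l₀ (univ.biUnion fun a => row B (ρ a).1) : Finset (Fin n)))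
    (by
      have := (r1 0).2.2
      have := (r1 1).2.2
      have := (r1 2).2.2
      have := (r1 3).2.2
      rw [Fintype.card_coe, Fintype.card_fin]
      omega)
  have g1 : ∀ b, (k₀, (γ b).1) ∈ E ∧ (γ b).1 ≠ l₀ ∧ ∀ a, ((ρ a).1, (γ b).1) ∉ B := fun b => by
    simpa only [mem_sdiff, mem_row, mem_insert, mem_biUnion, mem_univ, true_and, not_or,
      not_exists] using (γ b).2
  have ρi : ∀ a a', (ρ a).1 = (ρ a').1 → a = a' := fun a a' e => ρ.injective (Subtype.ext e)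
  have γi : ∀ b b', (γ b).1 = (γ b').1 → b = b' := fun b b' e => γ.injective (Subtype.ext e)
  have nb : ∀ a b i j, (i, j) ∈ E → i ≠ k₀ → j ≠ l₀ → ((ρ a).1, j) ∈ E → (i, (γ b).1) ∈ E →
      False := fun a b i j h1 h2 h3 h5 h6 => (g1 b).2.2 a
    (mem_filter.2 ⟨mem_univ _, (r1 a).1, (g1 b).1, (i, j), h1, h2, h3, h5, h6⟩)
  have nE : ∀ a b, ((ρ a).1, (γ b).1) ∉ E := fun a b h =>
    nb a b _ _ h (r1 a).2.1 (g1 b).2.1 h h
  set X : Finset (Fin m × Fin n) := (univ.image fun a => ((ρ a).1, l₀)) ∪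
    (univ.image fun b => (k₀, (γ b).1)) with hX
  set N : Finset (Fin m × Fin n) := pat.image fun c => ((ρ c.1).1, (γ c.2).1) with hN
  have cX : X.card ≤ 8 := (card_union_le _ _).trans
    (add_le_add (card_image_le.trans (by simp)) (card_image_le.trans (by simp)) : _ ≤ 4 + 4)
  have cN : N.card = 9 := by
    rw [hN, card_image_of_injective _ fun c c' e =>
      Prod.ext (ρi _ _ (Prod.mk.inj e).1) (γi _ _ (Prod.mk.inj e).2)]
    rfl
  have mN : ∀ i j, (i, j) ∈ N → ∃ a b, (a, b) ∈ pat ∧ (ρ a).1 = i ∧ (γ b).1 = j := fun i j h => by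
    obtain ⟨c, h1, h2⟩ := mem_image.1 h
    exact ⟨c.1, c.2, h1, (Prod.mk.inj h2).1, (Prod.mk.inj h2).2⟩
  have x1 : ∀ a, ((ρ a).1, l₀) ∈ X := fun a => mem_union_left _ (mem_image_of_mem _ (mem_univ a))
  have x2 : ∀ b, (k₀, (γ b).1) ∈ X := fun b => mem_union_right _ (mem_image_of_mem _ (mem_univ b))
  have key : ∀ i k j l, i ≠ k → j ≠ l → (i, j) ∈ N → (i, l) ∈ E \ X ∪ N → (k, j) ∈ E \ X ∪ N →
      (k, l) ∈ E \ X ∪ N → False := by
    intro i k j l hik hjl h1 h2 h3 h5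
    obtain ⟨a, b, p1, rfl, rfl⟩ := mN _ _ h1
    have inP : ∀ a b, ((ρ a).1, (γ b).1) ∈ E \ X ∪ N → (a, b) ∈ pat := fun a b h => by
      rcases mem_union.1 h with h | h
      · exact (nE a b (mem_sdiff.1 h).1).elim
      · obtain ⟨a', b', p, e1, e2⟩ := mN _ _ h
        rwa [← ρi _ _ e1, ← γi _ _ e2]
    have oldc : ∀ i j, (∀ b, (γ b).1 ≠ j) → (i, j) ∈ E \ X ∪ N → (i, j) ∈ E ∧ (i, j) ∉ X :=
      fun i j h h' => by
        rcases mem_union.1 h' with h' | h'
        · exact mem_sdiff.1 h'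
        · obtain ⟨-, b, -, -, e⟩ := mN _ _ h'
          exact (h b e).elim
    have oldr : ∀ i j, (∀ a, (ρ a).1 ≠ i) → (i, j) ∈ E \ X ∪ N → (i, j) ∈ E ∧ (i, j) ∉ X :=
      fun i j h h' => by
        rcases mem_union.1 h' with h' | h'
        · exact mem_sdiff.1 h'
        · obtain ⟨a, -, -, e, -⟩ := mN _ _ h'
          exact (h a e).elim
    by_cases ck : ∃ a', (ρ a').1 = k <;> by_cases cl : ∃ b', (γ b').1 = l
    · obtain ⟨a', rfl⟩ := ck
      obtain ⟨b', rfl⟩ := cl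
      exact pat_free ⟨a, a', b, b', fun e => hik (by rw [e]), fun e => hjl (by rw [e]), p1,
        inP _ _ h2, inP _ _ h3, inP _ _ h5⟩
    · obtain ⟨a', rfl⟩ := ck
      push Not at cl
      have o1 := oldc _ _ cl h2
      exact h4 ⟨_, _, l, l₀, hik, fun e => o1.2 (e ▸ x1 a), o1.1, (r1 a).1, (oldc _ _ cl h5).1,
        (r1 a').1⟩
    · obtain ⟨b', rfl⟩ := cl
      push Not at ck
      have o1 := oldr _ _ ck h3
      exact h4 ⟨k, k₀, _, _, fun e => o1.2 (e ▸ x2 b), hjl, o1.1, (oldr _ _ ck h5).1, (g1 b).1,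
        (g1 b').1⟩
    · push Not at ck cl
      have o1 := oldc _ _ cl h2
      have o2 := oldr _ _ ck h3
      exact nb a b k l (oldc _ _ cl h5).1 (fun e => o2.2 (e ▸ x2 b)) (fun e => o1.2 (e ▸ x1 a))
        o1.1 o2.1
  refine ⟨E \ X ∪ N, ?_, ?_⟩
  · rintro ⟨i, k, j, l, hik, hjl, h1, h2, h3, h5⟩
    rcases mem_union.1 h1 with a1 | a1
    · rcases mem_union.1 h2 with a2 | a2
      · rcases mem_union.1 h3 with a3 | a3
        · rcases mem_union.1 h5 with a5 | a5
          · exact h4 ⟨i, k, j, l, hik, hjl, (mem_sdiff.1 a1).1, (mem_sdiff.1 a2).1,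
              (mem_sdiff.1 a3).1, (mem_sdiff.1 a5).1⟩
          · exact key k i l j hik.symm hjl.symm a5 h3 h2 h1
        · exact key k i j l hik.symm hjl a3 h5 h1 h2
      · exact key i k l j hik hjl.symm a2 h1 h5 h3
    · exact key i k j l hik hjl a1 h2 h3 h5
  · rw [card_union_of_disjoint (disjoint_right.2 fun c h h' => by
      obtain ⟨a, b, -, e1, e2⟩ := mN c.1 c.2 h
      exact nE a b (e1 ▸ e2 ▸ (mem_sdiff.1 h').1)), cN]
    have := le_card_sdiff X E
    have : X.card ≤ E.card := card_le_card fun c hc => by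
      rcases mem_union.1 hc with h | h <;> obtain ⟨a, -, rfl⟩ := mem_image.1 h
      exacts [(r1 a).1, (g1 a).1]
    omega

theorem main (m n : ℕ) : m * n ≤ 1000 * z3L m n := by
  have bdd : BddAbove {s | ∃ E : Finset (Fin m × Fin n), ¬ HasC4 E ∧ E.card = s} :=
    ⟨Fintype.card (Fin m × Fin n), by
      rintro s ⟨E, -, rfl⟩
      exact card_le_univ E⟩
  have mx : ∀ E : Finset (Fin m × Fin n), ¬ HasC4 E → E.card ≤ z m n := fun E h =>
    le_csSup bdd ⟨E, h, rfl⟩
  obtain ⟨E, h4, hz⟩ : ∃ E : Finset (Fin m × Fin n), ¬ HasC4 E ∧ E.card = z m n :=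
    Nat.sSup_mem (s := {s | ∃ E : Finset (Fin m × Fin n), ¬ HasC4 E ∧ E.card = s})
      ⟨0, ∅, by simp [HasC4], rfl⟩ bdd
  by_cases hE : 1000 * E.card < m * n
  swap
  · have := le_z3L ⟨E, ∅, ∅, by simp, by simp⟩ ⟨by simp, by simp⟩
      ⟨h4, by simp [AugGraph.Cond2], by simp [AugGraph.Cond3], by simp [AugGraph.Cond4]⟩ hz
    simp only [AugGraph.size, card_empty] at this
    omega
  have m0 : 0 < m := Nat.pos_of_ne_zero fun h => by simp [h] at hE
  have n0 : 0 < n := Nat.pos_of_ne_zero fun h => by simp [h] at hE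
  have a1 : n ≤ z m n := by
    have := mx (univ.image fun j => (⟨0, m0⟩, j)) (by
      rintro ⟨i, k, j, l, hik, -, h1, -, h3, -⟩
      obtain ⟨_, -, e1⟩ := mem_image.1 h1
      obtain ⟨_, -, e3⟩ := mem_image.1 h3
      exact hik ((Prod.mk.inj e1).1.symm.trans (Prod.mk.inj e3).1))
    rwa [card_image_of_injective _ fun j l e => (Prod.mk.inj e).2, card_univ,
      Fintype.card_fin] at this
  have a2 : m ≤ z m n := by
    have := mx (univ.image fun i => (i, ⟨0, n0⟩)) (by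
      rintro ⟨i, k, j, l, -, hjl, h1, h2, -, -⟩
      obtain ⟨_, -, e1⟩ := mem_image.1 h1
      obtain ⟨_, -, e2⟩ := mem_image.1 h2
      exact hjl ((Prod.mk.inj e1).2.symm.trans (Prod.mk.inj e2).2))
    rwa [card_image_of_injective _ fun j l e => (Prod.mk.inj e).1, card_univ,
      Fintype.card_fin] at this
  have hm : 1000 < m := lt_of_mul_lt_mul_right (a := n) (by omega) n0.le
  have hn : 1000 < n := lt_of_mul_lt_mul_left (a := m) (by omega) m0.le
  have fin : ∀ a b : ℕ, 1000 < a → 1000 < b → b * a ≤ 1000 * (a / 10 * (b / 5)) := fun a b ha hb =>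
    calc b * a ≤ (10 * (b / 5)) * (100 * (a / 10)) := Nat.mul_le_mul (by omega) (by omega)
      _ = _ := by ring
  by_cases c1 : ∀ i, 2 * (row E i).card ≤ n
  · obtain ⟨f, hf⟩ := build h4 hE hn c1
    have := hf.le h4 hz
    rw [Fintype.card_prod, Fintype.card_fin, Fintype.card_fin] at this
    exact (fin n m hn hm).trans (Nat.mul_le_mul_left _ this)
  by_cases c2 : ∀ j, 2 * (col E j).card ≤ m
  · have ct : (tr E).card = E.card := by
      rw [← sum_row, ← sum_col]
      exact sum_congr rfl fun j _ => congrArg card (by ext i; simp)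
    obtain ⟨f, hf⟩ := build (E := tr E) (by
        rintro ⟨i, k, j, l, hik, hjl, h1, h2, h3, h5⟩
        exact h4 ⟨j, l, i, k, hjl, hik, mem_tr.1 h1, mem_tr.1 h3, mem_tr.1 h2, mem_tr.1 h5⟩)
      (by rw [ct, mul_comm n]; exact hE) hm
      (fun j => le_of_eq_of_le (congrArg (fun s : Finset (Fin m) => 2 * s.card) (by ext i; simp))
        (c2 j))
    have := hf.swap.le h4 hz
    rw [Fintype.card_prod, Fintype.card_fin, Fintype.card_fin] at this
    rw [mul_comm m]
    exact (fin m n hm hn).trans (Nat.mul_le_mul_left _ this)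
  push Not at c1 c2
  obtain ⟨k₀, hk⟩ := c1
  obtain ⟨l₀, hl⟩ := c2
  obtain ⟨E', h1, h2⟩ := exchange h4 hE hm hn hk hl
  have := mx E' h1
  omega

end Pool.Agent.Lib.MP_10302a_co.Order
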